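import Pool.Agent.Helper18.PS.St2

/-!
# Project PS (MP_4afa08_nt), module BOO: three bootstrap steps
-/

set_option autoImplicit false

namespace Pool.Agent.Helper44.PS

open Finset
open Nat (totient)
open Pool.Agent.Helper18.PS
open Pool.Agent.Helper98.LM (StSV)
open Pool.Agent.Helper15.AB (StMT)

/-- the bound with exponent `a` -/
private def Bd (a : ℝ) : Prop := ∃ K : ℝ, 0 < K ∧ ∀ N : ℕ, 1 ≤ N →
  (cU N : ℝ) ≤ K * N * (1 + Real.log N) ^ (-a)

private lemma bd0 : Bd 0 := by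
  refine ⟨1, one_pos, fun N _ => ?_⟩
  rw [neg_zero, Real.rpow_zero, one_mul, mul_one]
  have h : cU N ≤ N := by
    classical
    unfold cU
    refine (Finset.card_filter_le _ _).trans ?_
    simp
  exact_mod_cast h

private lemma term {a : ℝ} (ha : 0 ≤ a) {K : ℝ} (hK : 0 < K)
    (h : ∀ N : ℕ, 1 ≤ N → (cU N : ℝ) ≤ K * N * (1 + Real.log N) ^ (-a)) {N k : ℕ} (hN : 1 ≤ N)
    (hk : 2 ^ k ≤ N) :
    (cU (N / 2 ^ k) : ℝ) * 2 ^ k ≤
      K * 4 ^ a * N * (1 + Real.log N - k * Real.log 2) ^ (-a) := by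
  obtain ⟨m, hm⟩ : ∃ m, m = N / 2 ^ k := ⟨_, rfl⟩
  rw [← hm]
  have h2 : 0 < 2 ^ k := by positivity
  have hm1 : 1 ≤ m := by rw [hm]; exact (Nat.one_le_div_iff h2).2 hk
  have hm0 : (0 : ℝ) < m := by exact_mod_cast hm1
  have hN0 : (0 : ℝ) < N := by exact_mod_cast hN
  have hp : (0 : ℝ) < 2 ^ k := by positivity
  have e1 : (m : ℝ) * 2 ^ k ≤ N := by
    have := Nat.div_mul_le_self N (2 ^ k)
    rw [← hm] at this
    exact_mod_cast this
  have e2 : (N : ℝ) ≤ m * 2 ^ k * 2 := by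
    have h3 := Nat.lt_mul_div_succ N h2
    rw [← hm] at h3
    have h4 : (N : ℝ) < 2 ^ k * (m + 1) := by exact_mod_cast h3
    have h5 : (1 : ℝ) ≤ m := by exact_mod_cast hm1
    nlinarith
  have l1 : Real.log N ≤ Real.log m + k * Real.log 2 + Real.log 2 := by
    have h3 := Real.log_le_log hN0 e2
    rw [Real.log_mul (by positivity) (by norm_num), Real.log_mul hm0.ne' hp.ne', Real.log_pow] at h3
    exact h3
  have l2 : (k : ℝ) * Real.log 2 ≤ Real.log N := by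
    have h3 : ((2 : ℝ) ^ k) ≤ N := by exact_mod_cast hk
    have h4 := Real.log_le_log hp h3
    rwa [Real.log_pow] at h4
  have l3 : Real.log 2 < 0.6931471808 := Real.log_two_lt_d9
  obtain ⟨v, hv⟩ : ∃ v, v = 1 + Real.log N - k * Real.log 2 := ⟨_, rfl⟩
  rw [← hv]
  have hv1 : 1 ≤ v := by rw [hv]; linarith
  have l4 : v / 4 ≤ 1 + Real.log m := by
    have : v - Real.log 2 ≤ 1 + Real.log m := by rw [hv]; linarith
    linarith
  have l5 : (1 + Real.log m) ^ (-a) ≤ 4 ^ a * v ^ (-a) := by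
    have h3 : (1 + Real.log m) ^ (-a) ≤ (v / 4) ^ (-a) :=
      Real.rpow_le_rpow_of_nonpos (by positivity) l4 (by linarith)
    have h4 : (v / 4) ^ (-a) = 4 ^ a * v ^ (-a) := by
      rw [Real.div_rpow (by linarith) (by norm_num), Real.rpow_neg (by norm_num : (0 : ℝ) ≤ 4),
        div_inv_eq_mul, mul_comm]
    rwa [h4] at h3
  have h6 := h m hm1
  have hw : 0 ≤ 4 ^ a * v ^ (-a) := by positivity
  calc (cU m : ℝ) * 2 ^ k ≤ K * m * (1 + Real.log m) ^ (-a) * 2 ^ k :=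
        mul_le_mul_of_nonneg_right h6 hp.le
    _ ≤ K * m * (4 ^ a * v ^ (-a)) * 2 ^ k := by gcongr
    _ = K * (4 ^ a * v ^ (-a)) * (m * 2 ^ k) := by ring
    _ ≤ K * (4 ^ a * v ^ (-a)) * N := by gcongr
    _ = _ := by ring

private lemma step (hR : StREC) (hS : StSUM) {a : ℝ} (ha : a = 0 ∨ a = 2 / 3 ∨ a = 4 / 3)
    (hB : Bd a) : Bd (a + 2 / 3) := by
  obtain ⟨K, hK, h⟩ := hB
  obtain ⟨C, hC, hR⟩ := hR
  obtain ⟨D, hD, hS⟩ := hS a ha
  have ha0 : 0 ≤ a := by rcases ha with rfl | rfl | rfl <;> norm_num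
  have ha1 : a ≤ 4 / 3 := by rcases ha with rfl | rfl | rfl <;> norm_num
  refine ⟨C + C * (K * 4 ^ a * D), by positivity, fun N hN => ?_⟩
  have hN0 : (0 : ℝ) < N := by exact_mod_cast hN
  have hL : 0 ≤ Real.log N := Real.log_nonneg (by exact_mod_cast hN)
  have hL1 : (1 : ℝ) ≤ 1 + Real.log N := by linarith
  have p1 : ((1 + Real.log N) ^ 3)⁻¹ ≤ (1 + Real.log N) ^ (-(a + 2 / 3)) := by
    have e : ((1 + Real.log N) ^ 3)⁻¹ = (1 + Real.log N) ^ (-(3 : ℝ)) := by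
      rw [Real.rpow_neg (by linarith)]
      norm_cast
    rw [e]
    exact Real.rpow_le_rpow_of_exponent_le hL1 (by linarith)
  refine (hR N hN).trans ?_
  have p2 : C * N / (1 + Real.log N) ^ 3 ≤ C * N * (1 + Real.log N) ^ (-(a + 2 / 3)) := by
    rw [div_eq_mul_inv]
    gcongr
  have p3 : C * ∑ k ∈ (range (N + 1)).filter
      (fun k : ℕ => Real.exp (Real.log N ^ (2 / 3 : ℝ)) ≤ 2 ^ (k + 1) ∧ 2 ^ k ≤ N),
      (cU (N / 2 ^ k) : ℝ) * 2 ^ k / (1 + (k : ℝ)) ^ 2 ≤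
      C * (K * 4 ^ a * N * (D * (1 + Real.log N) ^ (-(a + 2 / 3)))) := by
    refine mul_le_mul_of_nonneg_left ?_ hC.le
    refine le_trans ?_ (mul_le_mul_of_nonneg_left (hS N hN) (by positivity))
    rw [Finset.mul_sum]
    refine Finset.sum_le_sum fun k hk => ?_
    rw [← mul_div_assoc]
    refine div_le_div_of_nonneg_right ?_ (by positivity)
    exact term ha0 hK h hN (Finset.mem_filter.1 hk).2.2
  calc _ ≤ C * N * (1 + Real.log N) ^ (-(a + 2 / 3))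
        + C * (K * 4 ^ a * N * (D * (1 + Real.log N) ^ (-(a + 2 / 3)))) := add_le_add p2 p3
    _ = _ := by ring

/-- Module BOO. -/
theorem hBOO (hR : StREC) (hS : StSUM) : StBOO := by
  have h1 : Bd (0 + 2 / 3) := step hR hS (Or.inl rfl) bd0
  have h2 : Bd (2 / 3 + 2 / 3) := step hR hS (Or.inr (Or.inl rfl)) (by rwa [zero_add] at h1)
  have h3 : Bd (4 / 3 + 2 / 3) := step hR hS (Or.inr (Or.inr rfl))
    (by rwa [show (2 / 3 + 2 / 3 : ℝ) = 4 / 3 by norm_num] at h2)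
  obtain ⟨K, hK, h⟩ := h3
  refine ⟨K, hK, fun N hN => ?_⟩
  have hL : 0 ≤ Real.log N := Real.log_nonneg (by exact_mod_cast hN)
  refine (h N hN).trans (le_of_eq ?_)
  rw [show (-(4 / 3 + 2 / 3) : ℝ) = -2 by norm_num, Real.rpow_neg (by linarith), div_eq_mul_inv]
  norm_cast

end Pool.Agent.Helper44.PS
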